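import Pool.Agent.W81.R1N.AppN

/-!
Almost all integers of a short interval as a prime plus a value of a fixed quadratic polynomial.
-/

set_option autoImplicit false

namespace Pool.Agent.W81.R1N

open Finset Polynomial Filter
open Pool.Agent.H442R2.EHI (evt_log_pow evt_log_ge)
open Pool.Agent.H300R2.BH (rho SS pv lF)
open Pool.Agent.W80.EC
open Pool.Agent.W81.R1

/-- the number of `m ≥ 1` with `n - α m² - β m` prime -/
noncomputable def rr (α β n : ℕ) : ℕ :=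
  ((Icc 1 n).filter (fun m : ℕ => α * m ^ 2 + β * m ≤ n ∧ (n - (α * m ^ 2 + β * m)).Prime)).card

/-- the sum of `1 / log (n - α m² - β m)` over `m ≥ 1` with `α m² + β m + 2 ≤ n` -/
noncomputable def JJ (α β n : ℕ) : ℝ :=
  ∑ m ∈ (Icc 1 n).filter (fun m : ℕ => α * m ^ 2 + β * m + 2 ≤ n),
    1 / Real.log ((n - (α * m ^ 2 + β * m) : ℕ) : ℝ)

lemma pv_eq_rr (α β n x : ℕ) (hα : 1 ≤ α) (hx : n ≤ α * x ^ 2) :
    pv (q2 (-(α : ℤ)) (-(β : ℤ)) n) x = rr α β n := by
  unfold pv rr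
  congr 2
  ext k
  rw [mem_filter, mem_filter, mem_Icc, mem_Icc, q2_eval]
  have hkk : α * k ^ 2 + β * k ≤ n → k ≤ n := by
    intro h
    have h1 : 1 * k ≤ α * k ^ 2 := Nat.mul_le_mul hα (Nat.le_self_pow two_ne_zero k)
    omega
  have hkx : α * k ^ 2 + β * k ≤ n → k ≤ x := by
    intro h
    have h1 : α * k ^ 2 ≤ α * x ^ 2 := by omega
    have h2 : k ^ 2 ≤ x ^ 2 := Nat.le_of_mul_le_mul_left h1 (by omega)
    exact (Nat.pow_le_pow_iff_left two_ne_zero).1 h2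
  have e1 : (-(α : ℤ) * (k : ℤ) ^ 2 + -(β : ℤ) * k + n).toNat = n - (α * k ^ 2 + β * k) := by
    have e2 : -(α : ℤ) * (k : ℤ) ^ 2 + -(β : ℤ) * k + n = (n : ℤ) - ((α * k ^ 2 + β * k : ℕ) : ℤ) := by
      push_cast; ring
    rw [e2]
    omega
  rw [e1]
  constructor
  · rintro ⟨⟨h1, h2⟩, h3⟩
    have h4 : α * k ^ 2 + β * k ≤ n := by
      by_contra hcon
      rw [Nat.sub_eq_zero_of_le (by omega)] at h3
      exact Nat.not_prime_zero h3
    exact ⟨⟨h1, hkk h4⟩, h4, h3⟩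
  · rintro ⟨⟨h1, h2⟩, h3, h4⟩
    exact ⟨⟨h1, hkx h3⟩, h4⟩

lemma lF_eq_JJ (α β n x : ℕ) (hα : 1 ≤ α) (hx : n ≤ α * x ^ 2) :
    lF (q2 (-(α : ℤ)) (-(β : ℤ)) n) x = JJ α β n := by
  unfold lF JJ
  have hkk : ∀ k : ℕ, α * k ^ 2 + β * k ≤ n → k ≤ n := by
    intro k h
    have h1 : 1 * k ≤ α * k ^ 2 := Nat.mul_le_mul hα (Nat.le_self_pow two_ne_zero k)
    omega
  have hkx : ∀ k : ℕ, α * k ^ 2 + β * k ≤ n → k ≤ x := by
    intro k h
    have h1 : α * k ^ 2 ≤ α * x ^ 2 := by omega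
    have h2 : k ^ 2 ≤ x ^ 2 := Nat.le_of_mul_le_mul_left h1 (by omega)
    exact (Nat.pow_le_pow_iff_left two_ne_zero).1 h2
  have e2 : ∀ k : ℕ, -(α : ℤ) * (k : ℤ) ^ 2 + -(β : ℤ) * k + n = (n : ℤ) - ((α * k ^ 2 + β * k : ℕ) : ℤ) := by
    intro k
    push_cast; ring
  have hset : (Icc 1 x).filter (fun k : ℕ => 2 ≤ (q2 (-(α : ℤ)) (-(β : ℤ)) n).eval (k : ℤ)) =
      (Icc 1 n).filter (fun m : ℕ => α * m ^ 2 + β * m + 2 ≤ n) := by
    ext k
    rw [mem_filter, mem_filter, mem_Icc, mem_Icc, q2_eval, e2]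
    constructor
    · rintro ⟨⟨h1, h2⟩, h3⟩
      have h4 : α * k ^ 2 + β * k + 2 ≤ n := by omega
      exact ⟨⟨h1, hkk k (by omega)⟩, h4⟩
    · rintro ⟨⟨h1, h2⟩, h3⟩
      exact ⟨⟨h1, hkx k (by omega)⟩, by omega⟩
  rw [hset]
  apply sum_congr rfl
  intro k hk
  rw [mem_filter] at hk
  rw [q2_eval, e2]
  congr 2
  have h1 : (n : ℤ) - ((α * k ^ 2 + β * k : ℕ) : ℤ) = ((n - (α * k ^ 2 + β * k) : ℕ) : ℤ) := by omega
  rw [h1, Int.cast_natCast]

open Classical in
/-- fixed `α`, `β` -/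
theorem app (α β : ℕ) (hα : 1 ≤ α) (U : ℕ) (ε : ℝ) (hε : 0 < ε) (hε1 : ε ≤ 1) : ∃ B N0 : ℕ, ∀ N H : ℕ,
    N0 ≤ N → Real.sqrt N * Real.log N ^ B ≤ H → H ≤ N →
    ∃ Bad : Finset ℕ, (Bad.card : ℝ) ≤ H / Real.log N ^ U ∧ ∀ n ∈ Ioc N (N + H), n ∉ Bad →
      Int.gcd (Int.gcd (-(α : ℤ)) (-(β : ℤ)) : ℤ) n = 1 → ¬ IsSquare (β ^ 2 + 4 * α * n) →
      ¬ (Even (α + β) ∧ Even n) →
      ∃ K : ℝ, 0 < K ∧
        Tendsto (fun X : ℕ => Pc (-(α : ℤ)) ((β ^ 2 + 4 * α * n : ℕ) : ℤ) X) atTop (nhds K) ∧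
        1 / (4 * Real.log N) ≤ ep (-(α : ℤ)) (-(β : ℤ)) * K * Gf (-(α : ℤ)) (-(β : ℤ)) ∧
        |(rr α β n : ℝ) - (ep (-(α : ℤ)) (-(β : ℤ)) * K * Gf (-(α : ℤ)) (-(β : ℤ))) * JJ α β n| ≤
          (ep (-(α : ℤ)) (-(β : ℤ)) * K * Gf (-(α : ℤ)) (-(β : ℤ))) * (Real.sqrt n / Real.log n ^ U) ∧
        |(rr α β n : ℝ) - (ep (-(α : ℤ)) (-(β : ℤ)) * K * Gf (-(α : ℤ)) (-(β : ℤ))) *
            (Real.sqrt (n / α) / Real.log n)| ≤
          ε * ((ep (-(α : ℤ)) (-(β : ℤ)) * K * Gf (-(α : ℤ)) (-(β : ℤ))) *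
            (Real.sqrt (n / α) / Real.log n)) := by
  obtain ⟨B, hB⟩ := finn 1 (U + 3)
  obtain ⟨X0, hX0⟩ := eventually_atTop.mp hB
  obtain ⟨N1, hN1⟩ := eventually_atTop.mp (lF_asymp α β hα (ε / 2) (by positivity) (by linarith))
  have hα0 : (0 : ℝ) < α := by exact_mod_cast hα
  obtain ⟨N2, hN2⟩ := eventually_atTop.mp ((evt_log_ge (4 * (α + β + 1))).and
    ((evt_log_ge (8 * 4 ^ (U + 6) * (1 + 1 / ε) * (α + 1))).and (eventually_ge_atTop 16)))
  obtain ⟨N3, hN3⟩ := eventually_atTop.mp (evt_log_pow (B + 2) (1 / 4) (by norm_num))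
  refine ⟨B + 1, X0 ^ 2 + N1 + N2 + N3 + 16, fun N H hN hH1 hH2 => ?_⟩
  obtain ⟨hLa, hLε, hN16⟩ := hN2 N (by omega)
  have hLB := hN3 N (by omega)
  set L := Real.log N with hL
  set x := Nat.sqrt (2 * N) + 1 with hx
  have hNr : (16 : ℝ) ≤ N := by exact_mod_cast hN16
  have hN0 : (0 : ℝ) < N := by linarith
  have hβ0 : (0 : ℝ) ≤ β := Nat.cast_nonneg _
  have hL4 : 4 ≤ L := by linarith
  have hL0 : 0 < L := by linarith
  have hL1 : 1 ≤ L := by linarith
  have hx2 : 2 * N < x ^ 2 := Nat.lt_succ_sqrt' (2 * N)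
  have hxs : Nat.sqrt (2 * N) ^ 2 ≤ 2 * N := Nat.sqrt_le' (2 * N)
  have hxN : (x : ℝ) ≤ 2 * Real.sqrt N := by
    have h1 : (Nat.sqrt (2 * N) : ℝ) ≤ Real.sqrt (2 * N) := by
      apply Real.le_sqrt_of_sq_le
      exact_mod_cast hxs
    have h2 : Real.sqrt (2 * N) ≤ (3 / 2) * Real.sqrt N := by
      rw [Real.sqrt_mul (by norm_num)]
      apply mul_le_mul_of_nonneg_right _ (Real.sqrt_nonneg _)
      rw [Real.sqrt_le_left (by norm_num)]
      norm_num
    have h3 : 4 ≤ Real.sqrt N := by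
      apply Real.le_sqrt_of_sq_le
      linarith
    rw [hx]
    push_cast
    linarith
  have hsN : Real.sqrt N ^ 2 = N := Real.sq_sqrt hN0.le
  have hsN4 : 4 ≤ Real.sqrt N := by
    apply Real.le_sqrt_of_sq_le
    linarith
  have hNx2 : (N : ℝ) ≤ (x : ℝ) ^ 2 := by
    have : N ≤ x ^ 2 := by omega
    exact_mod_cast this
  have hsNx : Real.sqrt N ≤ x := Real.sqrt_le_left (Nat.cast_nonneg _) |>.2 hNx2
  have hx4 : (4 : ℝ) ≤ x := by linarith
  have hx0 : (0 : ℝ) < x := by linarith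
  have hxNle : (x : ℝ) ≤ N := by
    refine hxN.trans ?_
    nlinarith
  have hlogx : Real.log x ≤ L := Real.log_le_log hx0 hxNle
  have hlogx2 : L / 2 ≤ Real.log x := by
    have h1 := Real.log_le_log hN0 hNx2
    rw [Real.log_pow] at h1
    push_cast at h1
    linarith
  have hlx1 : 1 ≤ Real.log x := by linarith
  have hlx0 : 0 < Real.log x := by linarith
  have hxX0 : X0 ≤ x := by
    have h1 : X0 ^ 2 ≤ x ^ 2 := by omega
    exact (Nat.pow_le_pow_iff_left two_ne_zero).1 h1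
  have hHr : (H : ℝ) ≤ N := by exact_mod_cast hH2
  obtain ⟨Bad, hBad, hgood⟩ := hX0 x hxX0 α (β : ℤ) (N : ℤ) H hα
    (by rw [pow_one]; linarith)
    (by
      rw [Int.cast_natCast, abs_of_nonneg hβ0, le_div_iff₀ (by positivity)]
      have h1 : Real.log x ^ B ≤ L ^ B := pow_le_pow_left₀ hlx0.le hlogx B
      have h2 : (β : ℝ) ≤ L := by linarith
      calc (β : ℝ) * Real.log x ^ B ≤ L * L ^ B := by gcongr
        _ = L ^ (B + 1) := by ring
        _ ≤ L ^ (B + 2) := pow_le_pow_right₀ hL1 (by omega)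
        _ ≤ (N : ℝ) ^ (1 / 4 : ℝ) := hLB
        _ ≤ (N : ℝ) ^ (1 / 2 : ℝ) := Real.rpow_le_rpow_of_exponent_le (by linarith) (by norm_num)
        _ = Real.sqrt N := (Real.sqrt_eq_rpow _).symm
        _ ≤ x := hsNx)
    (by
      rw [Int.cast_natCast, abs_of_nonneg hN0.le, pow_one]
      nlinarith)
    (by
      refine le_trans ?_ hH1
      have h1 : Real.log x ^ B ≤ L ^ B := pow_le_pow_left₀ hlx0.le hlogx B
      calc (x : ℝ) * Real.log x ^ B ≤ (2 * Real.sqrt N) * L ^ B := by gcongr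
        _ ≤ (L * Real.sqrt N) * L ^ B := by gcongr; linarith
        _ = Real.sqrt N * L ^ (B + 1) := by ring)
    (by
      rw [pow_one]
      nlinarith)
  refine ⟨(Ioc N (N + H)).filter (fun n : ℕ => (n : ℤ) ∈ Bad), ?_, ?_⟩
  · have h1 : ((Ioc N (N + H)).filter (fun n : ℕ => (n : ℤ) ∈ Bad)).card ≤ Bad.card := by
      apply card_le_card_of_injOn (fun n : ℕ => (n : ℤ))
      · intro n hn
        rw [mem_coe, mem_filter] at hn
        exact hn.2
      · intro a _ b _ h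
        simpa using h
    have h2 : (((Ioc N (N + H)).filter (fun n : ℕ => (n : ℤ) ∈ Bad)).card : ℝ) ≤ Bad.card := by
      exact_mod_cast h1
    refine h2.trans (hBad.trans ?_)
    have h3 : L ^ U ≤ Real.log x ^ (U + 3) := by
      have h4 : (L / 2) ^ (U + 3) ≤ Real.log x ^ (U + 3) := pow_le_pow_left₀ (by positivity) hlogx2 _
      refine le_trans ?_ h4
      rw [div_pow, le_div_iff₀ (by positivity)]
      calc L ^ U * 2 ^ (U + 3) ≤ L ^ U * L ^ 3 := by
            gcongr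
            calc (2 : ℝ) ^ (U + 3) ≤ 8 * 4 ^ (U + 6) * (1 + 1 / ε) * (α + 1) := by
                  have h5 : (2 : ℝ) ^ (U + 3) ≤ 4 ^ (U + 6) := by
                    calc (2 : ℝ) ^ (U + 3) ≤ 4 ^ (U + 3) := pow_le_pow_left₀ (by norm_num) (by norm_num) _
                      _ ≤ 4 ^ (U + 6) := pow_le_pow_right₀ (by norm_num) (by omega)
                  have h6 : (0 : ℝ) < 4 ^ (U + 6) := by positivity
                  have h7 : 0 < 1 / ε := by positivity
                  have h8 : (4 : ℝ) ^ (U + 6) * 1 * 1 ≤ 8 * 4 ^ (U + 6) * (1 + 1 / ε) * (α + 1) := by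
                    gcongr <;> linarith
                  linarith
              _ ≤ L := hLε
              _ ≤ L ^ 3 := le_self_pow₀ hL1 (by norm_num)
        _ = L ^ (U + 3) := by ring
    exact div_le_div_of_nonneg_left (Nat.cast_nonneg _) (by positivity) h3
  · intro n hn hnB hg hsq hpar
    have hnI := mem_Ioc.1 hn
    have hnB' : (n : ℤ) ∉ Bad := by
      intro hcon
      apply hnB
      rw [mem_filter]
      exact ⟨hn, hcon⟩
    have e1 : (-(β : ℤ)) ^ 2 - 4 * (-(α : ℤ)) * (n : ℤ) = ((β ^ 2 + 4 * α * n : ℕ) : ℤ) := by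
      push_cast; ring
    have hsq' : ¬ IsSquare ((-(β : ℤ)) ^ 2 - 4 * (-(α : ℤ)) * (n : ℤ)) := by
      rw [e1, Int.isSquare_natCast_iff]
      exact hsq
    have hpar' : ¬ (Even (-(α : ℤ) + -(β : ℤ)) ∧ Even (n : ℤ)) := by
      rintro ⟨h1, h2⟩
      apply hpar
      constructor
      · have h3 : -(α : ℤ) + -(β : ℤ) = -((α + β : ℕ) : ℤ) := by push_cast; ring
        rw [h3, even_neg, Int.even_coe_nat] at h1
        exact h1
      · rwa [Int.even_coe_nat] at h2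
    obtain ⟨K, hK, hlim, hlow, hall⟩ := hgood n (by rw [mem_Ioc]; omega) hnB' hg hsq' hpar'
    rw [e1] at hlim
    set S := ep (-(α : ℤ)) (-(β : ℤ)) * K * Gf (-(α : ℤ)) (-(β : ℤ)) with hS
    have hS0 : 0 < S := lt_of_lt_of_le (by positivity) hlow
    have hnx : n ≤ α * x ^ 2 := by
      have h1 : n ≤ 2 * N := by omega
      have h2 : 1 * x ^ 2 ≤ α * x ^ 2 := Nat.mul_le_mul_right _ hα
      omega
    have hx1 := hall x le_rfl
    rw [pv_eq_rr α β n x hα hnx] at hx1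
    have hM := hN1 n (by omega) x (by exact_mod_cast hnx)
    rw [lF_eq_JJ α β n x hα hnx] at hx1 hM
    have hNn : (N : ℝ) ≤ n := by exact_mod_cast hnI.1.le
    have hn2N : (n : ℝ) ≤ 2 * N := by
      have : n ≤ 2 * N := by omega
      exact_mod_cast this
    have hn0 : (0 : ℝ) < n := by linarith
    have hLn : L ≤ Real.log n := Real.log_le_log hN0 hNn
    have hLn2 : Real.log n ≤ 2 * L := by
      have h1 := Real.log_le_log hn0 hn2N
      rw [Real.log_mul (by norm_num) (by linarith)] at h1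
      have h2 : Real.log 2 ≤ 1 := by have := Real.log_two_lt_d9; linarith
      linarith
    set Ln := Real.log n with hLnd
    have hLn0 : 0 < Ln := by linarith
    have hLn1 : 1 ≤ Ln := by linarith
    have hxLn : Ln / 4 ≤ Real.log x := by linarith
    have hsNn : Real.sqrt N ≤ Real.sqrt n := Real.sqrt_le_sqrt hNn
    have hsn0 : 0 < Real.sqrt n := by linarith
    have herr : (x : ℝ) / Real.log x ^ (U + 3 + 1) ≤ 2 * 4 ^ (U + 4) * (Real.sqrt n / Ln ^ (U + 4)) := by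
      have h1 : (Ln / 4) ^ (U + 4) ≤ Real.log x ^ (U + 4) := pow_le_pow_left₀ (by positivity) hxLn _
      calc (x : ℝ) / Real.log x ^ (U + 3 + 1) ≤ (2 * Real.sqrt n) / (Ln / 4) ^ (U + 4) := by
            apply div_le_div₀ (by positivity) (by linarith) (by positivity) h1
        _ = _ := by
            rw [div_pow]
            field_simp
    have h4U : (4 : ℝ) ^ (U + 4) ≤ 4 ^ (U + 6) := pow_le_pow_right₀ (by norm_num) (by omega)
    have hL8 : 8 * 4 ^ (U + 4) * (1 + 1 / ε) * (α + 1) ≤ Ln := by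
      refine le_trans ?_ (hLε.trans hLn)
      gcongr
    have hie : 0 < 1 / ε := by positivity
    refine ⟨K, hK, hlim, ?_, ?_, ?_⟩
    · refine le_trans ?_ hlow
      apply one_div_le_one_div_of_le (by linarith)
      linarith
    · refine hx1.trans ?_
      apply mul_le_mul_of_nonneg_left _ hS0.le
      refine herr.trans ?_
      have h1 : 2 * (4 : ℝ) ^ (U + 4) ≤ Ln ^ 4 := by
        calc 2 * (4 : ℝ) ^ (U + 4) ≤ 8 * 4 ^ (U + 4) * (1 + 1 / ε) * (α + 1) := by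
              have h6 : (0 : ℝ) < 4 ^ (U + 4) := by positivity
              have h8 : 2 * (4 : ℝ) ^ (U + 4) * 1 * 1 ≤ 8 * 4 ^ (U + 4) * (1 + 1 / ε) * (α + 1) := by
                gcongr <;> linarith
              linarith
          _ ≤ Ln := hL8
          _ ≤ Ln ^ 4 := le_self_pow₀ hLn1 (by norm_num)
      calc 2 * 4 ^ (U + 4) * (Real.sqrt n / Ln ^ (U + 4)) ≤ Ln ^ 4 * (Real.sqrt n / Ln ^ (U + 4)) := by gcongr
        _ = Real.sqrt n / Ln ^ U := by
            rw [pow_add]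
            field_simp
    · set M := Real.sqrt (n / α) / Ln with hMd
      have hM0 : 0 < M := by
        have : 0 < Real.sqrt (n / α) := Real.sqrt_pos.2 (by positivity)
        positivity
      have h1 : (x : ℝ) / Real.log x ^ (U + 3 + 1) ≤ (ε / 2) * M := by
        refine herr.trans ?_
        have h2 : Real.sqrt n ≤ (α + 1) * Real.sqrt (n / α) := by
          apply Real.sqrt_le_iff.2
          refine ⟨by positivity, ?_⟩
          rw [mul_pow, Real.sq_sqrt (by positivity)]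
          rw [mul_div_assoc', le_div_iff₀ hα0, mul_comm]
          apply mul_le_mul_of_nonneg_right _ hn0.le
          nlinarith
        have h3 : 2 * (4 : ℝ) ^ (U + 4) * (α + 1) ≤ (ε / 2) * Ln := by
          have h4 : (ε / 2) * (8 * 4 ^ (U + 4) * (1 + 1 / ε) * (α + 1)) ≤ (ε / 2) * Ln := by gcongr
          have h5 : (ε / 2) * (8 * 4 ^ (U + 4) * (1 + 1 / ε) * (α + 1)) =
              4 * 4 ^ (U + 4) * (α + 1) * (ε + 1) := by field_simp; ring
          rw [h5] at h4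
          refine le_trans ?_ h4
          have h6 : (0 : ℝ) < 4 ^ (U + 4) * (α + 1) := by positivity
          nlinarith
        have h7 : Ln ^ 2 ≤ Ln ^ (U + 4) := pow_le_pow_right₀ hLn1 (by omega)
        calc 2 * 4 ^ (U + 4) * (Real.sqrt n / Ln ^ (U + 4))
            ≤ 2 * 4 ^ (U + 4) * (((α + 1) * Real.sqrt (n / α)) / Ln ^ 2) := by gcongr
          _ = (2 * 4 ^ (U + 4) * (α + 1)) * (Real.sqrt (n / α) / Ln ^ 2) := by ring
          _ ≤ ((ε / 2) * Ln) * (Real.sqrt (n / α) / Ln ^ 2) := by gcongr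
          _ = (ε / 2) * M := by
              rw [hMd]
              field_simp
      have e2 : (rr α β n : ℝ) - S * M = ((rr α β n : ℝ) - S * JJ α β n) + S * (JJ α β n - M) := by ring
      rw [e2]
      calc |((rr α β n : ℝ) - S * JJ α β n) + S * (JJ α β n - M)|
          ≤ |(rr α β n : ℝ) - S * JJ α β n| + |S * (JJ α β n - M)| := abs_add_le _ _
        _ ≤ S * ((ε / 2) * M) + S * (ε / 2 * M) := by
            apply add_le_add
            · exact hx1.trans (mul_le_mul_of_nonneg_left h1 hS0.le)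
            · rw [abs_mul, abs_of_pos hS0]
              exact mul_le_mul_of_nonneg_left hM hS0.le
        _ = ε * (S * M) := by ring

end Pool.Agent.W81.R1N
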