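import Pool.Agent.W81.R1N.FinN

/-!
The number of representations as a prime and a value of a fixed quadratic polynomial.
-/

set_option autoImplicit false

namespace Pool.Agent.W81.R1N

open Finset Polynomial Filter
open Pool.Agent.H442R2.EHI (evt_log_pow evt_log_ge)
open Pool.Agent.H300R2.BH (rho SS pv lF)
open Pool.Agent.W80.EC
open Pool.Agent.W81.R1

/-- the main term: `∑ 1/log(c - α m² - β m)` is asymptotic to `√(c/α)/log c` -/
lemma lF_asymp (α β : ℕ) (hα : 1 ≤ α) (ε : ℝ) (hε : 0 < ε) (hε1 : ε ≤ 1) : ∀ᶠ c : ℕ in atTop, ∀ x : ℕ,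
    (c : ℝ) ≤ α * (x : ℝ) ^ 2 →
    |lF (q2 (-(α : ℤ)) (-(β : ℤ)) c) x - Real.sqrt (c / α) / Real.log c| ≤
      ε * (Real.sqrt (c / α) / Real.log c) := by
  have hα0 : (0 : ℝ) < α := by exact_mod_cast hα
  have hα1 : (1 : ℝ) ≤ α := by exact_mod_cast hα
  have hβ0 : (0 : ℝ) ≤ β := Nat.cast_nonneg _
  filter_upwards [evt_log_ge (16 / ε), evt_log_pow 1 (1 / 4) (by norm_num),
    evt_log_ge (100 * (α + β + 1) ^ 2), evt_log_pow 3 (ε / 4) (by positivity),
    evt_log_pow 4 (1 / 4) (by norm_num), eventually_ge_atTop 2]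
    with c hLε hL1q hLαβ hLη hL4 hc2 x hx
  set L := Real.log c with hL
  set s := Real.sqrt (c / α) with hs
  have hcr : (2 : ℝ) ≤ c := by exact_mod_cast hc2
  have hc0 : (0 : ℝ) < c := by linarith
  have hab1 : 1 ≤ ((α : ℝ) + β + 1) := by linarith
  have hL100 : 100 ≤ L := by
    refine le_trans ?_ hLαβ
    nlinarith
  have hL0 : 0 < L := by linarith
  have hLε' : 16 ≤ ε * L := by
    rw [div_le_iff₀ hε] at hLε
    linarith
  have hs2 : s ^ 2 = c / α := Real.sq_sqrt (by positivity)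
  have hs0 : 0 < s := Real.sqrt_pos.2 (by positivity)
  have hαs2 : α * s ^ 2 = c := by rw [hs2]; field_simp
  -- s is large
  have hc14 : (c : ℝ) ^ (1 / 4 : ℝ) * (c : ℝ) ^ (1 / 4 : ℝ) = (c : ℝ) ^ (1 / 2 : ℝ) := by
    rw [← Real.rpow_add hc0]; norm_num
  have hcs : (c : ℝ) ^ (1 / 2 : ℝ) = Real.sqrt c := (Real.sqrt_eq_rpow _).symm
  have hsL : 100 * (α + β + 1) * L ^ 2 ≤ s := by
    have h1 : (100 * ((α : ℝ) + β + 1) * L ^ 2) ^ 2 ≤ s ^ 2 := by
      rw [hs2, le_div_iff₀ hα0]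
      have h2 : (100 * ((α : ℝ) + β + 1) * L ^ 2) ^ 2 * α ≤ L ^ 8 := by
        have h3 : (100 * ((α : ℝ) + β + 1)) ^ 2 * α ≤ L ^ 4 := by
          have h4 : (100 * ((α : ℝ) + β + 1) ^ 2) ^ 4 ≤ L ^ 4 := pow_le_pow_left₀ (by positivity) hLαβ 4
          refine le_trans ?_ h4
          have h5 : (α : ℝ) ≤ (α : ℝ) + β + 1 := by linarith
          have h6 : ((α : ℝ) + β + 1) ^ 3 ≤ ((α : ℝ) + β + 1) ^ 8 := pow_le_pow_right₀ hab1 (by norm_num)
          calc (100 * ((α : ℝ) + β + 1)) ^ 2 * α ≤ (100 * ((α : ℝ) + β + 1)) ^ 2 * ((α : ℝ) + β + 1) := by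
                gcongr
            _ = 10000 * ((α : ℝ) + β + 1) ^ 3 := by ring
            _ ≤ 100000000 * ((α : ℝ) + β + 1) ^ 8 := by nlinarith [pow_pos (by linarith : (0 : ℝ) < (α : ℝ) + β + 1) 3]
            _ = _ := by ring
        calc (100 * ((α : ℝ) + β + 1) * L ^ 2) ^ 2 * α = ((100 * ((α : ℝ) + β + 1)) ^ 2 * α) * L ^ 4 := by ring
          _ ≤ L ^ 4 * L ^ 4 := by gcongr
          _ = L ^ 8 := by ring
      refine h2.trans ?_
      have h3 : (L ^ 4) ^ 2 ≤ ((c : ℝ) ^ (1 / 4 : ℝ)) ^ 2 := pow_le_pow_left₀ (by positivity) hL4 2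
      have h4 : ((c : ℝ) ^ (1 / 4 : ℝ)) ^ 2 = (c : ℝ) ^ (1 / 2 : ℝ) := by rw [sq]; exact hc14
      calc L ^ 8 = (L ^ 4) ^ 2 := by ring
        _ ≤ (c : ℝ) ^ (1 / 2 : ℝ) := by rw [← h4]; exact h3
        _ ≤ (c : ℝ) ^ (1 : ℝ) := Real.rpow_le_rpow_of_exponent_le (by linarith) (by norm_num)
        _ = c := Real.rpow_one _
    exact le_of_sq_le_sq h1 hs0.le
  have hL1 : 1 ≤ L := by linarith
  have hsx : s ≤ x := by
    have h1 : s ^ 2 ≤ (x : ℝ) ^ 2 := by
      rw [hs2, div_le_iff₀ hα0]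
      linarith
    exact le_of_sq_le_sq h1 (Nat.cast_nonneg _)
  have hev : ∀ k : ℕ, (((q2 (-(α : ℤ)) (-(β : ℤ)) c).eval (k : ℤ) : ℤ) : ℝ) = c - α * (k : ℝ) ^ 2 - β * k := by
    intro k
    rw [q2_eval]
    push_cast
    ring
  set T := (Icc 1 x).filter (fun k : ℕ => 2 ≤ (q2 (-(α : ℤ)) (-(β : ℤ)) c).eval (k : ℤ)) with hT
  have hTs : ∀ k ∈ T, (k : ℝ) ≤ s ∧ (2 : ℝ) ≤ c - α * (k : ℝ) ^ 2 - β * k := by
    intro k hk
    rw [hT, mem_filter] at hk
    have h1 : (2 : ℝ) ≤ c - α * (k : ℝ) ^ 2 - β * k := by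
      rw [← hev]
      exact_mod_cast hk.2
    refine ⟨?_, h1⟩
    have h2 : (k : ℝ) ^ 2 ≤ s ^ 2 := by
      rw [hs2, le_div_iff₀ hα0]
      have : 0 ≤ (β : ℝ) * k := by positivity
      nlinarith
    exact le_of_sq_le_sq h2 hs0.le
  have hlow : ∀ k ∈ T, 1 / L ≤ 1 / Real.log (((q2 (-(α : ℤ)) (-(β : ℤ)) c).eval (k : ℤ) : ℤ) : ℝ) := by
    intro k hk
    have h1 := (hTs k hk).2
    rw [hev]
    have h2 : Real.log 2 ≤ Real.log (c - α * (k : ℝ) ^ 2 - β * k) := Real.log_le_log (by norm_num) h1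
    have h3 : 0 < Real.log 2 := Real.log_pos (by norm_num)
    apply one_div_le_one_div_of_le (by linarith)
    apply Real.log_le_log (by linarith)
    have h4 : 0 ≤ (β : ℝ) * k := by positivity
    have h5 : 0 ≤ (α : ℝ) * (k : ℝ) ^ 2 := by positivity
    linarith
  have htwo : ∀ k ∈ T, 1 / Real.log (((q2 (-(α : ℤ)) (-(β : ℤ)) c).eval (k : ℤ) : ℤ) : ℝ) ≤ 2 := by
    intro k hk
    have h1 := (hTs k hk).2
    rw [hev]
    have h2 : Real.log 2 ≤ Real.log (c - α * (k : ℝ) ^ 2 - β * k) := Real.log_le_log (by norm_num) h1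
    have h3 : 1 / 2 ≤ Real.log 2 := by have := Real.log_two_gt_d9; linarith
    have h4 : 0 < Real.log (c - α * (k : ℝ) ^ 2 - β * k) := by linarith
    rw [div_le_iff₀ h4]
    linarith
  have hlF : lF (q2 (-(α : ℤ)) (-(β : ℤ)) c) x =
      ∑ k ∈ T, 1 / Real.log (((q2 (-(α : ℤ)) (-(β : ℤ)) c).eval (k : ℤ) : ℤ) : ℝ) := rfl
  have hsLpos : 0 < s / L := by positivity
  rw [abs_le]
  constructor
  · -- lower bound
    have hcard : s - β - 3 ≤ (T.card : ℝ) := by
      set m := ⌊s - (β + 2)⌋₊ with hm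
      have hm1 : s - (β + 2) < m + 1 := Nat.lt_floor_add_one _
      have hsub : Icc 1 m ⊆ T := by
        intro k hk
        rw [mem_Icc] at hk
        have hs1 : (β : ℝ) + 2 ≤ s := by
          refine le_trans ?_ hsL
          nlinarith [one_le_pow₀ hL1 (n := 2)]
        have hkm : (k : ℝ) ≤ s - (β + 2) := by
          have h1 : (m : ℝ) ≤ s - (β + 2) := Nat.floor_le (by linarith)
          have h2 : (k : ℝ) ≤ m := by exact_mod_cast hk.2
          linarith
        rw [hT, mem_filter, mem_Icc]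
        refine ⟨⟨hk.1, ?_⟩, ?_⟩
        · have : (k : ℝ) ≤ x := by linarith
          exact_mod_cast this
        · have hk0 : (0 : ℝ) ≤ k := Nat.cast_nonneg _
          have h1 : (k : ℝ) ^ 2 ≤ (s - (β + 2)) ^ 2 := pow_le_pow_left₀ hk0 hkm 2
          have h2 : (2 : ℝ) ≤ c - α * (k : ℝ) ^ 2 - β * k := by
            have h3 : α * (k : ℝ) ^ 2 ≤ α * (s - (β + 2)) ^ 2 := by gcongr
            have h4 : (β : ℝ) * k ≤ β * s := by
              apply mul_le_mul_of_nonneg_left _ hβ0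
              linarith
            have h5 : α * (s - (β + 2)) ^ 2 = c - 2 * α * (β + 2) * s + α * (β + 2) ^ 2 := by
              rw [← hαs2]; ring
            have h6 : (β : ℝ) * s ≤ α * β * s := by
              have h7 : (β : ℝ) * 1 ≤ β * α := mul_le_mul_of_nonneg_left hα1 hβ0
              have h8 : (β : ℝ) * 1 * s ≤ β * α * s := mul_le_mul_of_nonneg_right h7 hs0.le
              linarith
            have h7 : ((β : ℝ) + 2) ≤ s / 100 := by
              rw [le_div_iff₀ (by norm_num)]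
              refine le_trans ?_ hsL
              have h8 : (100 * ((α : ℝ) + β + 1)) * 1 ≤ 100 * ((α : ℝ) + β + 1) * L ^ 2 :=
                mul_le_mul_of_nonneg_left (one_le_pow₀ hL1) (by positivity)
              linarith
            have h9 : α * ((β : ℝ) + 2) ^ 2 ≤ α * ((β + 2) * (s / 100)) := by
              rw [sq]
              gcongr
            have h10 : 0 ≤ (α : ℝ) * β * s := by positivity
            have h11 : 1 * s ≤ α * s := mul_le_mul_of_nonneg_right hα1 hs0.le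
            have h12 : (200 : ℝ) ≤ s := by linarith
            nlinarith
          rw [← hev] at h2
          exact_mod_cast h2
      have h1 := card_le_card hsub
      rw [Nat.card_Icc, Nat.add_sub_cancel] at h1
      have h2 : (m : ℝ) ≤ T.card := by exact_mod_cast h1
      linarith
    have h1 : (T.card : ℝ) * (1 / L) ≤ lF (q2 (-(α : ℤ)) (-(β : ℤ)) c) x := by
      rw [hlF, ← nsmul_eq_mul, ← sum_const]
      exact sum_le_sum hlow
    have h2 : (s - β - 3) * (1 / L) ≤ (T.card : ℝ) * (1 / L) := by gcongr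
    have h3 : ((β : ℝ) + 3) ≤ ε * s := by
      have h4 : ε * (100 * ((α : ℝ) + β + 1) * L ^ 2) ≤ ε * s := by gcongr
      have h5 : ε * (100 * ((α : ℝ) + β + 1) * L ^ 2) = (ε * L) * (100 * ((α : ℝ) + β + 1) * L) := by ring
      have h6 : 16 * (100 * ((α : ℝ) + β + 1) * 1) ≤ (ε * L) * (100 * ((α : ℝ) + β + 1) * L) := by gcongr
      linarith
    have h4 : (s - β - 3) * (1 / L) = s / L - (β + 3) / L := by ring
    have h5 : ((β : ℝ) + 3) / L ≤ ε * (s / L) := by
      rw [← mul_div_assoc]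
      gcongr
    linarith
  · -- upper bound
    set T1 := T.filter (fun k : ℕ => (k : ℝ) ≤ s - s / L ^ 2) with hT1
    set T2 := T.filter (fun k : ℕ => ¬ (k : ℝ) ≤ s - s / L ^ 2) with hT2
    have hsplit : lF (q2 (-(α : ℤ)) (-(β : ℤ)) c) x =
        ∑ k ∈ T1, 1 / Real.log (((q2 (-(α : ℤ)) (-(β : ℤ)) c).eval (k : ℤ) : ℤ) : ℝ) +
        ∑ k ∈ T2, 1 / Real.log (((q2 (-(α : ℤ)) (-(β : ℤ)) c).eval (k : ℤ) : ℤ) : ℝ) := by
      rw [hlF, hT1, hT2, sum_filter_add_sum_filter_not]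
    have hLL : 1 ≤ L ^ 2 := one_le_pow₀ hL1
    have hsL2 : s / L ^ 2 ≤ s := div_le_self hs0.le hLL
    have hcL2 : s / L ^ 2 * L ^ 2 = s := by field_simp
    -- the first part
    have hA1 : ∑ k ∈ T1, 1 / Real.log (((q2 (-(α : ℤ)) (-(β : ℤ)) c).eval (k : ℤ) : ℤ) : ℝ) ≤
        s * ((1 + ε / 2) / L) := by
      have hcard : (T1.card : ℝ) ≤ s := by
        have hsub : T1 ⊆ Icc 1 ⌊s⌋₊ := by
          intro k hk
          rw [hT1, mem_filter] at hk
          have h1 := (hTs k hk.1).1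
          rw [hT, mem_filter, mem_Icc] at hk
          rw [mem_Icc]
          exact ⟨hk.1.1.1, Nat.le_floor h1⟩
        have h1 := card_le_card hsub
        rw [Nat.card_Icc, Nat.add_sub_cancel] at h1
        have h2 : (T1.card : ℝ) ≤ (⌊s⌋₊ : ℝ) := by exact_mod_cast h1
        exact h2.trans (Nat.floor_le hs0.le)
      have hterm : ∀ k ∈ T1, 1 / Real.log (((q2 (-(α : ℤ)) (-(β : ℤ)) c).eval (k : ℤ) : ℤ) : ℝ) ≤
          (1 + ε / 2) / L := by
        intro k hk
        rw [hT1, mem_filter] at hk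
        have hk0 : (0 : ℝ) ≤ k := Nat.cast_nonneg _
        rw [hev]
        have h1 : (k : ℝ) ^ 2 ≤ (s - s / L ^ 2) ^ 2 := pow_le_pow_left₀ hk0 hk.2 2
        have h2 : (c : ℝ) / (2 * L ^ 2) ≤ c - α * (k : ℝ) ^ 2 - β * k := by
          have h3 : α * (k : ℝ) ^ 2 ≤ α * (s - s / L ^ 2) ^ 2 := by gcongr
          have h4 : (β : ℝ) * k ≤ β * s := by
            apply mul_le_mul_of_nonneg_left _ hβ0
            exact (hTs k hk.1).1
          have h5 : α * (s - s / L ^ 2) ^ 2 ≤ c - α * (s * (s / L ^ 2)) := by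
            have h6 : (s - s / L ^ 2) ^ 2 ≤ s ^ 2 - s * (s / L ^ 2) := by
              have h7 : 0 ≤ (s / L ^ 2) * (s - s / L ^ 2) := by
                apply mul_nonneg (by positivity); linarith
              nlinarith
            calc α * (s - s / L ^ 2) ^ 2 ≤ α * (s ^ 2 - s * (s / L ^ 2)) := by gcongr
              _ = c - α * (s * (s / L ^ 2)) := by rw [← hαs2]; ring
          have h6 : (c : ℝ) / (2 * L ^ 2) = α * (s * (s / L ^ 2)) / 2 := by
            rw [← hαs2]; field_simp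
          have h7 : (β : ℝ) * s ≤ α * (s * (s / L ^ 2)) / 2 := by
            have h8 : 100 * ((α : ℝ) + β + 1) ≤ s / L ^ 2 := by
              rw [le_div_iff₀ (by positivity)]
              exact hsL
            have h9 : 2 * (β : ℝ) ≤ α * (s / L ^ 2) := by
              calc 2 * (β : ℝ) ≤ 1 * (100 * ((α : ℝ) + β + 1)) := by linarith
                _ ≤ α * (s / L ^ 2) := by gcongr
            have h10 : 2 * (β : ℝ) * s ≤ α * (s / L ^ 2) * s := mul_le_mul_of_nonneg_right h9 hs0.le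
            linarith
          rw [h6]
          linarith
        have h3 : (c : ℝ) ^ (1 - ε / 4) ≤ c / (2 * L ^ 2) := by
          rw [Real.rpow_sub hc0, Real.rpow_one]
          apply div_le_div_of_nonneg_left hc0.le (by positivity)
          refine le_trans ?_ hLη
          calc 2 * L ^ 2 ≤ L * L ^ 2 := by gcongr; linarith
            _ = L ^ 3 := by ring
        have h4 : (1 - ε / 4) * L ≤ Real.log (c - α * (k : ℝ) ^ 2 - β * k) := by
          rw [hL, ← Real.log_rpow hc0]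
          exact Real.log_le_log (by positivity) (h3.trans h2)
        have h5 : 0 < (1 - ε / 4) * L := by
          apply mul_pos _ hL0
          linarith
        refine (one_div_le_one_div_of_le h5 h4).trans ?_
        rw [div_le_div_iff₀ h5 hL0]
        have h6 : 1 ≤ (1 + ε / 2) * (1 - ε / 4) := by nlinarith
        nlinarith
      calc _ ≤ ∑ k ∈ T1, (1 + ε / 2) / L := sum_le_sum hterm
        _ = (T1.card : ℝ) * ((1 + ε / 2) / L) := by rw [sum_const, nsmul_eq_mul]
        _ ≤ _ := by gcongr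
    have hA2 : ∑ k ∈ T2, 1 / Real.log (((q2 (-(α : ℤ)) (-(β : ℤ)) c).eval (k : ℤ) : ℤ) : ℝ) ≤
        4 * (s / L ^ 2) := by
      have hcard : (T2.card : ℝ) ≤ s / L ^ 2 + 1 := by
        have hsub : T2 ⊆ Ioc ⌊s - s / L ^ 2⌋₊ ⌊s⌋₊ := by
          intro k hk
          rw [hT2, mem_filter, not_le] at hk
          have h1 := (hTs k hk.1).1
          rw [mem_Ioc]
          refine ⟨?_, Nat.le_floor h1⟩
          rw [Nat.floor_lt (by linarith)]
          exact hk.2
        have h1 := card_le_card hsub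
        rw [Nat.card_Ioc] at h1
        have h2 : (T2.card : ℝ) ≤ ((⌊s⌋₊ - ⌊s - s / L ^ 2⌋₊ : ℕ) : ℝ) := by exact_mod_cast h1
        have h3 : ⌊s - s / L ^ 2⌋₊ ≤ ⌊s⌋₊ := Nat.floor_le_floor (by linarith [div_nonneg hs0.le (sq_nonneg L)])
        rw [Nat.cast_sub h3] at h2
        have h4 : (⌊s⌋₊ : ℝ) ≤ s := Nat.floor_le hs0.le
        have h5 : s - s / L ^ 2 < ⌊s - s / L ^ 2⌋₊ + 1 := Nat.lt_floor_add_one _
        linarith
      have h1 : 1 ≤ s / L ^ 2 := by
        rw [le_div_iff₀ (by positivity)]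
        refine le_trans ?_ hsL
        have : 1 * L ^ 2 ≤ (100 * ((α : ℝ) + β + 1)) * L ^ 2 := by
          gcongr
          linarith
        exact this
      calc _ ≤ ∑ k ∈ T2, (2 : ℝ) := sum_le_sum fun k hk => htwo k (mem_filter.1 hk).1
        _ = (T2.card : ℝ) * 2 := by rw [sum_const, nsmul_eq_mul]
        _ ≤ (s / L ^ 2 + 1) * 2 := by gcongr
        _ ≤ _ := by linarith
    have h1 : 4 * (s / L ^ 2) ≤ (ε / 4) * (s / L) := by
      have h2 : 4 * (s / L ^ 2) = (4 / L) * (s / L) := by field_simp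
      rw [h2]
      apply mul_le_mul_of_nonneg_right _ hsLpos.le
      rw [div_le_iff₀ hL0]
      linarith
    have h2 : s * ((1 + ε / 2) / L) = s / L + (ε / 2) * (s / L) := by ring
    rw [hsplit]
    have h3 : 0 ≤ ε * (s / L) := by positivity
    linarith

end Pool.Agent.W81.R1N
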