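import Pool.Agent.W81.R1.GFun

/-!
The second moment in short intervals of shifts for negative leading coefficients, by reflection.
-/

set_option autoImplicit false

namespace Pool.Agent.W81.R1N

open Finset Filter
open Pool.Agent.H469R2.NK (e norm_e e_add conj_e)
open Pool.Agent.H442R2.EHI (evt_log_pow evt_log_ge)
open Pool.Agent.H300R2.BH (chf fz)
open Pool.Agent.W81.R1

/-- the reflected function -/
noncomputable def rf (g : ℕ → ℂ) (N n : ℕ) : ℂ := if 1 ≤ n ∧ n ≤ N then g (N + 1 - n) else 0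

lemma fz_rf (g : ℕ → ℂ) (N : ℕ) (hg : ∀ n, N < n → g n = 0) (v : ℤ) :
    fz g v = fz (rf g N) (N + 1 - v) := by
  unfold fz rf
  by_cases h1 : 1 ≤ v
  · rw [if_pos h1]
    by_cases h2 : v ≤ N
    · rw [if_pos (by omega), if_pos (by omega)]
      congr 1
      omega
    · rw [hg _ (by omega), if_neg (by omega)]
  · rw [if_neg h1]
    split_ifs with h3 h4
    · omega
    · rfl
    · rfl

lemma sum_rf {M : Type*} [AddCommMonoid M] (F : ℕ → M) (N : ℕ) :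
    ∑ n ∈ Icc 1 N, F (N + 1 - n) = ∑ n ∈ Icc 1 N, F n := by
  apply sum_nbij' (fun n => N + 1 - n) (fun n => N + 1 - n)
  · intro n hn; rw [mem_Icc] at hn ⊢; omega
  · intro n hn; rw [mem_Icc] at hn ⊢; omega
  · intro n hn; rw [mem_Icc] at hn; omega
  · intro n hn; rw [mem_Icc] at hn; omega
  · intro n hn; rfl

/-- the second moment in short intervals of shifts -/
theorem short_log_neg (C0 C4 U1 U2 G : ℕ) : ∃ E3 B : ℕ, ∀ᶠ x : ℕ in atTop,
    ∀ (α : ℕ) (β : ℤ) (A N : ℕ) (a0 : ℤ) (g : ℕ → ℂ), 1 ≤ α → (α : ℝ) ≤ Real.log x ^ C0 →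
      (|β| : ℝ) ≤ x / Real.log x ^ (U1 + 1) → x * Real.log x ^ B ≤ A → (A : ℝ) ≤ (x : ℝ) ^ (3 / 2 : ℝ) →
      1 ≤ N → (N : ℝ) ≤ (x : ℝ) ^ 2 * Real.log x ^ C4 → (∀ n, N < n → g n = 0) →
      (∀ n ∈ Ioc 0 x, ∀ k < A, |(a0 + k) - qf α β n| ≤ N) →
      ∑ n ∈ Icc 1 N, ‖g n‖ ^ 2 ≤ N * Real.log x ^ G →
      (∀ t : ℝ, ‖∑ n ∈ Icc 1 N, g n * e (n * t)‖ ≤ N / Real.log x ^ E3) →
      ∑ k ∈ range A, ‖∑ n ∈ Ioc ⌊(x : ℝ) / Real.log x ^ U1⌋₊ x, fz g ((a0 + k) - qf α β n)‖ ^ 2 ≤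
        A * (x : ℝ) ^ 2 / Real.log x ^ U2 := by
  obtain ⟨E3, B, h⟩ := short_log C0 (C4 + 1) U1 U2 G
  refine ⟨E3, B, ?_⟩
  filter_upwards [h, evt_log_ge 4, eventually_ge_atTop 1] with x hx hL hx1 α β A N a0 g hα hαL hβ hA hA32
    hN1 hN hg hval hG hsup
  set L := Real.log x with hLd
  have hL0 : 0 < L := by linarith
  have hxr : (1 : ℝ) ≤ x := by exact_mod_cast hx1
  have hNr : (1 : ℝ) ≤ N := by exact_mod_cast hN1
  have hsub : Icc 1 N ⊆ Icc 1 (2 * N + 1) := Icc_subset_Icc le_rfl (by omega)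
  have key := hx α β A (2 * N + 1) (N + 2 - a0 - A) (rf g N) hα hαL hβ hA hA32 (by omega) (by
    push_cast
    calc 2 * (N : ℝ) + 1 ≤ 3 * N := by linarith
      _ ≤ 3 * ((x : ℝ) ^ 2 * L ^ C4) := by gcongr
      _ ≤ L * ((x : ℝ) ^ 2 * L ^ C4) := by gcongr; linarith
      _ = (x : ℝ) ^ 2 * L ^ (C4 + 1) := by ring) (by
    intro n hn
    unfold rf
    rw [if_neg (by omega)]) (by
    intro n hn k hk
    have h1 := abs_le.1 (hval n hn (A - 1 - k) (by omega))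
    have h2 : (((A - 1 - k : ℕ)) : ℤ) = A - 1 - k := by omega
    rw [h2] at h1
    push_cast
    rw [abs_le]
    constructor <;> linarith) (by
    have h1 : ∑ n ∈ Icc 1 (2 * N + 1), ‖rf g N n‖ ^ 2 = ∑ n ∈ Icc 1 N, ‖rf g N n‖ ^ 2 := by
      symm
      apply sum_subset hsub
      intro n hn hn2
      unfold rf
      rw [if_neg (by rw [mem_Icc] at hn2; exact hn2)]
      simp
    have h2 : ∑ n ∈ Icc 1 N, ‖rf g N n‖ ^ 2 = ∑ n ∈ Icc 1 N, ‖g n‖ ^ 2 := by
      rw [← sum_rf (fun n => ‖g n‖ ^ 2) N]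
      refine sum_congr rfl fun n hn => ?_
      unfold rf
      rw [mem_Icc] at hn
      rw [if_pos hn]
    rw [h1, h2]
    refine hG.trans ?_
    push_cast
    gcongr
    linarith) (by
    intro t
    have h1 : ∑ n ∈ Icc 1 (2 * N + 1), rf g N n * e (n * t) = ∑ n ∈ Icc 1 N, rf g N n * e (n * t) := by
      symm
      apply sum_subset hsub
      intro n hn hn2
      unfold rf
      rw [if_neg (by rw [mem_Icc] at hn2; exact hn2), zero_mul]
    have h2 : ∑ n ∈ Icc 1 N, rf g N n * e (n * t) =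
        e (((N : ℝ) + 1) * t) * ∑ n ∈ Icc 1 N, g n * e (n * (-t)) := by
      rw [← sum_rf (fun n : ℕ => g n * e (n * (-t))) N, mul_sum]
      refine sum_congr rfl fun n hn => ?_
      rw [mem_Icc] at hn
      unfold rf
      rw [if_pos hn]
      have h3 : e ((n : ℝ) * t) = e (((N : ℝ) + 1) * t) * e (((N + 1 - n : ℕ) : ℝ) * (-t)) := by
        rw [← e_add]
        congr 1
        rw [Nat.cast_sub (by omega)]
        push_cast
        ring
      rw [h3]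
      ring
    rw [h1, h2, norm_mul, norm_e, one_mul]
    refine (hsup (-t)).trans ?_
    push_cast
    gcongr
    linarith)
  refine le_trans (le_of_eq ?_) key
  rw [← sum_range_reflect (fun k : ℕ => ‖∑ n ∈ Ioc ⌊(x : ℝ) / L ^ U1⌋₊ x, fz g ((a0 + k) - qf α β n)‖ ^ 2) A]
  refine sum_congr rfl fun k hk => ?_
  rw [mem_range] at hk
  congr 2
  refine sum_congr rfl fun n hn => ?_
  rw [fz_rf g N hg]
  congr 1
  have h2 : (((A - 1 - k : ℕ)) : ℤ) = A - 1 - k := by omega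
  rw [h2]
  ring

end Pool.Agent.W81.R1N
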