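import Pool.Agent.W81.R1.Model
import Pool.Agent.W81.R1N.MeanN

/-!
From the weighted sums to the number of prime values, for one polynomial `c - β n - α n²`.
-/

set_option autoImplicit false

namespace Pool.Agent.W81.R1N

open Finset Filter Polynomial
open Pool.Agent.H442R2.EHI (evt_log_pow evt_log_ge)
open Pool.Agent.H300R2.BH (rho SS pv lF)
open Pool.Agent.H373R2.T7 (lamz Vz pz mem_pz lamz_nonneg Vz_pos Vz_inv_small sys_count PerB nuB)
open Pool.Agent.W80.EC (q2 q2_eval rho_odd rho_dvd_a rho_dvd_ab)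
open Pool.Agent.W81.R1

/-- Abel summation with increasing weights -/
lemma abel_mono (a w : ℕ → ℝ) (u y : ℕ) (W T : ℝ) (hT0 : 0 ≤ T) (hW0 : 0 ≤ W) (huy : u ≤ y)
    (hw0 : ∀ n, u < n → n ≤ y → 0 ≤ w n)
    (hmono : ∀ n, u < n → n + 1 ≤ y → w n ≤ w (n + 1))
    (hW : ∀ n, u < n → n ≤ y → w n ≤ W)
    (hT : ∀ t, u ≤ t → t ≤ y → |∑ n ∈ Ioc u t, a n| ≤ T) :
    |∑ n ∈ Ioc u y, a n * w n| ≤ 2 * W * T := by
  have h1 := abel_anti a (fun n => W - w n) u y W T hT0 hW0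
    (fun n h1 h2 => by have := hW n h1 h2; linarith)
    (fun n h1 h2 => by have := hmono n h1 h2; linarith)
    (fun n h1 h2 => by have := hw0 n h1 h2; linarith) hT
  have h2 := hT y huy le_rfl
  have e1 : ∑ n ∈ Ioc u y, a n * w n = W * ∑ n ∈ Ioc u y, a n - ∑ n ∈ Ioc u y, a n * (W - w n) := by
    rw [mul_sum, ← sum_sub_distrib]
    refine sum_congr rfl fun n _ => ?_
    ring
  rw [e1]
  calc |W * ∑ n ∈ Ioc u y, a n - ∑ n ∈ Ioc u y, a n * (W - w n)|
      ≤ |W * ∑ n ∈ Ioc u y, a n| + |∑ n ∈ Ioc u y, a n * (W - w n)| := abs_sub _ _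
    _ ≤ W * T + W * T := by
        apply add_le_add _ h1
        rw [abs_mul, abs_of_nonneg hW0]
        exact mul_le_mul_of_nonneg_left h2 hW0
    _ = 2 * W * T := by ring

/-- monotonicity of the values -/
lemma q2_anti (α : ℕ) (β c : ℤ) (hα : 1 ≤ α) (n m : ℕ) (hn : β.natAbs ≤ n) (hnm : n ≤ m) :
    (q2 (-(α : ℤ)) (-β) c).eval (m : ℤ) ≤ (q2 (-(α : ℤ)) (-β) c).eval (n : ℤ) := by
  have h := q2_mono α β 0 hα n m hn hnm
  rw [q2_eval, q2_eval] at h ⊢
  linarith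

lemma q2_small (α : ℕ) (β c : ℤ) (hα : 1 ≤ α) : ∃ n : ℕ, β.natAbs ≤ n ∧
    (q2 (-(α : ℤ)) (-β) c).eval ((n + 1 : ℕ) : ℤ) < 2 := by
  obtain ⟨n, h1, h2⟩ := q2_large α β (-c) hα
  refine ⟨n, h1, ?_⟩
  rw [q2_eval] at h2 ⊢
  linarith

open Classical in
/-- from the weighted sums to the number of prime values -/
theorem pv_close_neg (E V : ℕ) : ∀ᶠ x : ℕ in atTop, ∀ (α : ℕ) (β c : ℤ) (z : ℕ), 1 ≤ α →
    (|β| : ℝ) ≤ x / Real.log x ^ (V + 3) → 1 ≤ z → (z : ℝ) ≤ Real.log x ^ E →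
    Int.gcd (Int.gcd (-(α : ℤ)) (-β) : ℤ) c = 1 →
    (∀ y ≤ x, |∑ n ∈ Ioc 0 y, gI z (c - qf α β n)| ≤ x / Real.log x ^ (V + 2)) →
    ∀ y ≤ x, |pv (q2 (-(α : ℤ)) (-β) c) y - SS z (q2 (-(α : ℤ)) (-β) c) * lF (q2 (-(α : ℤ)) (-β) c) y| ≤
      x / Real.log x ^ V := by
  obtain ⟨N1, hN1⟩ := Vz_inv_small E
  filter_upwards [count_all E (V + 3), eventually_ge_atTop N1, evt_log_ge 100,
    evt_log_pow (V + 3) 1 (by norm_num), eventually_ge_atTop 1]
    with x hcount hxN1 hL hV hx1 α β c z hα hβ hz hzE hg hS y hy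
  rw [Real.rpow_one] at hV
  have hVz := hN1 x hxN1 z hz hzE
  have hcnt := hcount z hz hzE (-(α : ℤ)) (-β) c hg
  set L := Real.log x with hLd
  have hL0 : 0 < L := by linarith
  have hL1 : 1 ≤ L := by linarith
  have hxr : (1 : ℝ) ≤ x := by exact_mod_cast hx1
  have hx0 : (0 : ℝ) < x := by linarith
  set F := q2 (-(α : ℤ)) (-β) c with hF
  set n0 := β.natAbs with hn0
  have hn0r : (n0 : ℝ) ≤ x / L ^ (V + 3) := by
    rw [hn0, Nat.cast_natAbs]
    push_cast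
    exact hβ
  set v := (Vz z)⁻¹ with hv
  have hv0 : 0 < v := inv_pos.2 (Vz_pos z)
  obtain ⟨hP0, hP1⟩ := PP_bounds (a := -(α : ℤ)) (b := -β) (c := c) z
  rw [← hF] at hP0 hP1
  set P := PP z F with hP
  have hSS : SS z F = v * P := SS_eq_PP z F
  have hSS0 : 0 ≤ SS z F := by rw [hSS]; positivity
  have hSSL : SS z F ≤ L := by
    rw [hSS]
    calc v * P ≤ L * 1 := mul_le_mul hVz hP1 hP0 hL0.le
      _ = L := mul_one L
  have hFe : ∀ n : ℕ, F.eval (n : ℤ) = c - qf α β n := by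
    intro n
    rw [hF, q2_eval]
    unfold qf
    ring
  -- the threshold
  have hex := q2_small α β c hα
  rw [← hF] at hex
  set n3 := Nat.find hex with hn3
  have hn3s := Nat.find_spec hex
  rw [← hn3] at hn3s
  have hneg : ∀ n : ℕ, n3 < n → F.eval (n : ℤ) < 2 := by
    intro n hn
    have h1 := q2_anti α β c hα (n3 + 1) n (by omega) (by omega)
    rw [← hF] at h1
    exact lt_of_le_of_lt h1 hn3s.2
  have hpos : ∀ n : ℕ, n0 < n → n ≤ n3 → 2 ≤ F.eval (n : ℤ) := by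
    intro n hn hn3
    obtain ⟨m, rfl⟩ := Nat.exists_eq_add_of_lt (show 0 < n by omega)
    rw [zero_add] at hn hn3 ⊢
    have h1 := Nat.find_min hex (m := m) (by omega)
    rw [not_and] at h1
    exact not_lt.1 (h1 (by omega))
  have hn03 : n0 ≤ n3 := hn3s.1
  -- the sum of the weights up to the threshold
  have hT : ∀ u t : ℕ, n0 ≤ u → u ≤ t → t ≤ n3 → t ≤ x → |∑ n ∈ Ioc u t, (thw (F.eval (n : ℤ)) - SS z F)| ≤
      4 * x / L ^ (V + 2) := by
    intro u t hu hut htn3 htx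
    have e1 : ∑ n ∈ Ioc u t, (thw (F.eval (n : ℤ)) - SS z F) =
        (∑ n ∈ Ioc 0 t, gI z (c - qf α β n) - ∑ n ∈ Ioc 0 u, gI z (c - qf α β n)) +
        v * (((((Icc 1 t).filter (fun m : ℕ => ∀ p ∈ pz z, ¬ (p : ℤ) ∣ F.eval (m : ℤ))).card : ℝ) - t * P) -
          ((((Icc 1 u).filter (fun m : ℕ => ∀ p ∈ pz z, ¬ (p : ℤ) ∣ F.eval (m : ℤ))).card : ℝ) - u * P)) := by
      have h1 : ∑ n ∈ Ioc 0 t, gI z (c - qf α β n) - ∑ n ∈ Ioc 0 u, gI z (c - qf α β n) =
          ∑ n ∈ Ioc u t, gI z (c - qf α β n) := by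
        rw [sub_eq_iff_eq_add, ← sum_union]
        · congr 1
          ext n
          simp only [mem_Ioc, mem_union]
          omega
        · rw [disjoint_left]
          intro n hn hn2
          rw [mem_Ioc] at hn hn2
          omega
      have h2 : ((((Icc 1 t).filter (fun m : ℕ => ∀ p ∈ pz z, ¬ (p : ℤ) ∣ F.eval (m : ℤ))).card : ℝ)) -
          ((((Icc 1 u).filter (fun m : ℕ => ∀ p ∈ pz z, ¬ (p : ℤ) ∣ F.eval (m : ℤ))).card : ℝ)) =
          ∑ n ∈ Ioc u t, (if ∀ p ∈ pz z, ¬ (p : ℤ) ∣ F.eval (n : ℤ) then (1 : ℝ) else 0) := by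
        rw [sub_eq_iff_eq_add]
        have h3 : ∀ s : Finset ℕ, ((s.filter (fun m : ℕ => ∀ p ∈ pz z, ¬ (p : ℤ) ∣ F.eval (m : ℤ))).card : ℝ) =
            ∑ n ∈ s, (if ∀ p ∈ pz z, ¬ (p : ℤ) ∣ F.eval (n : ℤ) then (1 : ℝ) else 0) := by
          intro s
          rw [← sum_filter, sum_const, nsmul_eq_mul, mul_one]
        rw [h3, h3, ← sum_union]
        · congr 1
          ext n
          simp only [mem_Ioc, mem_Icc, mem_union]
          omega
        · rw [disjoint_left]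
          intro n hn hn2
          rw [mem_Ioc] at hn
          rw [mem_Icc] at hn2
          omega
      have h4 : ((t : ℝ) - u) = ∑ n ∈ Ioc u t, (1 : ℝ) := by
        rw [sum_const, Nat.card_Ioc, nsmul_eq_mul, mul_one, Nat.cast_sub hut]
      rw [h1]
      have h5 : v * (((((Icc 1 t).filter (fun m : ℕ => ∀ p ∈ pz z, ¬ (p : ℤ) ∣ F.eval (m : ℤ))).card : ℝ) - t * P) -
          ((((Icc 1 u).filter (fun m : ℕ => ∀ p ∈ pz z, ¬ (p : ℤ) ∣ F.eval (m : ℤ))).card : ℝ) - u * P)) =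
          v * ((((((Icc 1 t).filter (fun m : ℕ => ∀ p ∈ pz z, ¬ (p : ℤ) ∣ F.eval (m : ℤ))).card : ℝ)) -
          ((((Icc 1 u).filter (fun m : ℕ => ∀ p ∈ pz z, ¬ (p : ℤ) ∣ F.eval (m : ℤ))).card : ℝ))) -
            (t - u) * P) := by ring
      rw [h5, h2, h4, mul_sub, sum_mul, mul_sum, mul_sum, ← sum_sub_distrib, ← sum_add_distrib]
      refine sum_congr rfl fun n hn => ?_
      rw [mem_Ioc] at hn
      have h6 := hpos n (by omega) (by omega)
      rw [← hFe, gI_eq z _ (by omega), hSS]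
      split_ifs <;> ring
    rw [e1]
    have b1 := hS t htx
    have b2 := hS u (hut.trans htx)
    have b3 := hcnt t htx
    have b4 := hcnt u (hut.trans htx)
    have c1 : |v * (((((Icc 1 t).filter (fun m : ℕ => ∀ p ∈ pz z, ¬ (p : ℤ) ∣ F.eval (m : ℤ))).card : ℝ) - t * P) -
          ((((Icc 1 u).filter (fun m : ℕ => ∀ p ∈ pz z, ¬ (p : ℤ) ∣ F.eval (m : ℤ))).card : ℝ) - u * P))| ≤
        L * (x / L ^ (V + 3) + x / L ^ (V + 3)) := by
      rw [abs_mul, abs_of_pos hv0]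
      apply mul_le_mul hVz _ (abs_nonneg _) hL0.le
      exact (abs_sub _ _).trans (add_le_add b3 b4)
    have c2 : |∑ n ∈ Ioc 0 t, gI z (c - qf α β n) - ∑ n ∈ Ioc 0 u, gI z (c - qf α β n)| ≤
        x / L ^ (V + 2) + x / L ^ (V + 2) := (abs_sub _ _).trans (add_le_add b1 b2)
    refine (abs_add_le _ _).trans ((add_le_add c2 c1).trans (le_of_eq ?_))
    rw [show V + 3 = (V + 2) + 1 by ring, pow_succ L (V + 2)]
    field_simp
    ring
  -- Abel summation
  set y' := min y n3 with hy'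
  have hy'1 : y' ≤ y := min_le_left _ _
  have hy'3 : y' ≤ n3 := min_le_right _ _
  have hlog2 : 1 / 2 ≤ Real.log 2 := by have := Real.log_two_gt_d9; linarith
  have hw : ∀ n : ℕ, n0 < n → n ≤ n3 → 0 < Real.log ((F.eval (n : ℤ) : ℤ) : ℝ) ∧
      1 / Real.log ((F.eval (n : ℤ) : ℤ) : ℝ) ≤ 2 := by
    intro n hn hn'
    have h1 : (2 : ℝ) ≤ ((F.eval (n : ℤ) : ℤ) : ℝ) := by exact_mod_cast hpos n hn hn'
    have h2 := Real.log_le_log (by norm_num) h1
    have h3 : 0 < Real.log ((F.eval (n : ℤ) : ℤ) : ℝ) := by linarith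
    refine ⟨h3, ?_⟩
    rw [div_le_iff₀ h3]
    linarith
  have habel : |∑ n ∈ Ioc n0 y', (thw (F.eval (n : ℤ)) - SS z F) *
      (1 / Real.log ((F.eval (n : ℤ) : ℤ) : ℝ))| ≤ 4 * (4 * x / L ^ (V + 2)) := by
    rcases Nat.lt_or_ge y' n0 with hlt | hge
    · rw [Ioc_eq_empty (by omega), sum_empty, abs_zero]
      positivity
    · refine (abel_mono (fun n => thw (F.eval (n : ℤ)) - SS z F)
        (fun n => 1 / Real.log ((F.eval (n : ℤ) : ℤ) : ℝ)) n0 y' 2 (4 * x / L ^ (V + 2)) (by positivity)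
        (by norm_num) hge ?_ ?_ ?_ ?_).trans (le_of_eq (by ring))
      · intro n hn hn'
        have := (hw n hn (hn'.trans hy'3)).1
        positivity
      · intro n hn hn'
        apply one_div_le_one_div_of_le (hw (n + 1) (by omega) (hn'.trans hy'3)).1
        apply Real.log_le_log
        · have := hpos (n + 1) (by omega) (hn'.trans hy'3)
          exact_mod_cast (by omega : 0 < F.eval ((n + 1 : ℕ) : ℤ))
        · have h1 := q2_anti α β c hα n (n + 1) (by omega) (by omega)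
          rw [← hF] at h1
          exact_mod_cast h1
      · intro n hn hn'
        exact (hw n hn (hn'.trans hy'3)).2
      · intro t ht hty
        exact hT n0 t le_rfl ht (hty.trans hy'3) ((hty.trans hy'1).trans hy)
  -- splitting
  have hpv : pv F y = ((((Icc 1 y).filter (fun k : ℕ => k ≤ n0)).filter
      (fun k : ℕ => (F.eval (k : ℤ)).toNat.Prime)).card : ℝ) +
      ∑ n ∈ Ioc n0 y', thw (F.eval (n : ℤ)) * (1 / Real.log ((F.eval (n : ℤ) : ℤ) : ℝ)) := by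
    have e1 : ∑ n ∈ Ioc n0 y', thw (F.eval (n : ℤ)) * (1 / Real.log ((F.eval (n : ℤ) : ℤ) : ℝ)) =
        (((Ioc n0 y').filter (fun k : ℕ => (F.eval (k : ℤ)).toNat.Prime)).card : ℝ) := by
      rw [card_filter]
      push_cast
      refine sum_congr rfl fun n hn => ?_
      rw [mem_Ioc] at hn
      have := (hw n hn.1 (hn.2.trans hy'3)).1
      unfold thw
      split_ifs
      · field_simp
      · simp
    rw [e1]
    unfold pv
    rw [← Nat.cast_add]
    congr 1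
    rw [← card_union_of_disjoint]
    · congr 1
      ext n
      simp only [mem_filter, mem_Icc, mem_union, mem_Ioc]
      constructor
      · rintro ⟨⟨h1, h2⟩, h3⟩
        by_cases h4 : n ≤ n0
        · exact Or.inl ⟨⟨⟨h1, h2⟩, h4⟩, h3⟩
        · right
          refine ⟨⟨by omega, ?_⟩, h3⟩
          rw [hy', le_min_iff]
          refine ⟨h2, ?_⟩
          by_contra h5
          have h6 := hneg n (by omega)
          have h7 := h3.two_le
          omega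
      · rintro (⟨⟨⟨h1, h2⟩, h4⟩, h3⟩ | ⟨⟨h1, h2⟩, h3⟩)
        · exact ⟨⟨h1, h2⟩, h3⟩
        · exact ⟨⟨by omega, h2.trans hy'1⟩, h3⟩
    · rw [disjoint_left]
      intro n hn hn3
      simp only [mem_filter, mem_Icc, mem_Ioc] at hn hn3
      omega
  have hlF : lF F y = ∑ n ∈ ((Icc 1 y).filter (fun k : ℕ => k ≤ n0)).filter
      (fun k : ℕ => 2 ≤ F.eval (k : ℤ)), 1 / Real.log ((F.eval (n : ℤ) : ℤ) : ℝ) +
      ∑ n ∈ Ioc n0 y', 1 / Real.log ((F.eval (n : ℤ) : ℤ) : ℝ) := by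
    unfold lF
    rw [← sum_union]
    · apply sum_congr _ fun _ _ => rfl
      ext n
      simp only [mem_filter, mem_Icc, mem_union, mem_Ioc]
      constructor
      · rintro ⟨⟨h1, h2⟩, h3⟩
        by_cases h4 : n ≤ n0
        · exact Or.inl ⟨⟨⟨h1, h2⟩, h4⟩, h3⟩
        · right
          refine ⟨by omega, ?_⟩
          rw [hy', le_min_iff]
          refine ⟨h2, ?_⟩
          by_contra h5
          have h6 := hneg n (by omega)
          omega
      · rintro (⟨⟨⟨h1, h2⟩, h4⟩, h3⟩ | ⟨h1, h2⟩)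
        · exact ⟨⟨h1, h2⟩, h3⟩
        · exact ⟨⟨by omega, h2.trans hy'1⟩, hpos n h1 (h2.trans hy'3)⟩
    · rw [disjoint_left]
      intro n hn hn3
      simp only [mem_filter, mem_Icc, mem_Ioc] at hn hn3
      omega
  have hcard0 : (((Icc 1 y).filter (fun k : ℕ => k ≤ n0)).card : ℝ) ≤ n0 := by
    have h1 : (Icc 1 y).filter (fun k : ℕ => k ≤ n0) ⊆ Icc 1 n0 := by
      intro k hk
      rw [mem_filter, mem_Icc] at hk
      rw [mem_Icc]
      exact ⟨hk.1.1, hk.2⟩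
    have h2 := card_le_card h1
    rw [Nat.card_Icc, Nat.add_sub_cancel] at h2
    exact_mod_cast h2
  have hA1 : ((((Icc 1 y).filter (fun k : ℕ => k ≤ n0)).filter
      (fun k : ℕ => (F.eval (k : ℤ)).toNat.Prime)).card : ℝ) ≤ n0 := by
    refine le_trans ?_ hcard0
    exact_mod_cast card_filter_le _ _
  have hA2 : 0 ≤ ∑ n ∈ ((Icc 1 y).filter (fun k : ℕ => k ≤ n0)).filter
      (fun k : ℕ => 2 ≤ F.eval (k : ℤ)), 1 / Real.log ((F.eval (n : ℤ) : ℤ) : ℝ) ∧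
      ∑ n ∈ ((Icc 1 y).filter (fun k : ℕ => k ≤ n0)).filter
      (fun k : ℕ => 2 ≤ F.eval (k : ℤ)), 1 / Real.log ((F.eval (n : ℤ) : ℤ) : ℝ) ≤ 2 * n0 := by
    have hterm : ∀ n ∈ ((Icc 1 y).filter (fun k : ℕ => k ≤ n0)).filter
        (fun k : ℕ => 2 ≤ F.eval (k : ℤ)), 0 ≤ 1 / Real.log ((F.eval (n : ℤ) : ℤ) : ℝ) ∧
        1 / Real.log ((F.eval (n : ℤ) : ℤ) : ℝ) ≤ 2 := by
      intro n hn
      rw [mem_filter] at hn
      have h1 : (2 : ℝ) ≤ ((F.eval (n : ℤ) : ℤ) : ℝ) := by exact_mod_cast hn.2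
      have h2 := Real.log_le_log (by norm_num) h1
      have h3 : 0 < Real.log ((F.eval (n : ℤ) : ℤ) : ℝ) := by linarith
      refine ⟨by positivity, ?_⟩
      rw [div_le_iff₀ h3]
      linarith
    refine ⟨sum_nonneg fun n hn => (hterm n hn).1, ?_⟩
    refine (sum_le_sum fun n hn => (hterm n hn).2).trans ?_
    rw [sum_const, nsmul_eq_mul]
    have h1 : ((((Icc 1 y).filter (fun k : ℕ => k ≤ n0)).filter (fun k : ℕ => 2 ≤ F.eval (k : ℤ))).card : ℝ) ≤ n0 := by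
      refine le_trans ?_ hcard0
      exact_mod_cast card_filter_le _ _
    linarith
  set A1 := ((((Icc 1 y).filter (fun k : ℕ => k ≤ n0)).filter
      (fun k : ℕ => (F.eval (k : ℤ)).toNat.Prime)).card : ℝ) with hA1d
  set A2 := ∑ n ∈ ((Icc 1 y).filter (fun k : ℕ => k ≤ n0)).filter
      (fun k : ℕ => 2 ≤ F.eval (k : ℤ)), 1 / Real.log ((F.eval (n : ℤ) : ℤ) : ℝ) with hA2d
  have hA10 : 0 ≤ A1 := Nat.cast_nonneg _
  rw [hpv, hlF]
  have e1 : A1 + ∑ n ∈ Ioc n0 y', thw (F.eval (n : ℤ)) * (1 / Real.log ((F.eval (n : ℤ) : ℤ) : ℝ)) -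
      SS z F * (A2 + ∑ n ∈ Ioc n0 y', 1 / Real.log ((F.eval (n : ℤ) : ℤ) : ℝ)) =
      (A1 - SS z F * A2) + ∑ n ∈ Ioc n0 y', (thw (F.eval (n : ℤ)) - SS z F) *
        (1 / Real.log ((F.eval (n : ℤ) : ℤ) : ℝ)) := by
    have : ∑ n ∈ Ioc n0 y', (thw (F.eval (n : ℤ)) - SS z F) *
        (1 / Real.log ((F.eval (n : ℤ) : ℤ) : ℝ)) =
        ∑ n ∈ Ioc n0 y', thw (F.eval (n : ℤ)) * (1 / Real.log ((F.eval (n : ℤ) : ℤ) : ℝ)) -
        SS z F * ∑ n ∈ Ioc n0 y', 1 / Real.log ((F.eval (n : ℤ) : ℤ) : ℝ) := by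
      rw [mul_sum, ← sum_sub_distrib]
      refine sum_congr rfl fun n _ => ?_
      ring
    rw [this]
    ring
  rw [e1]
  have e2 : |A1 - SS z F * A2| ≤ L * (2 * n0) + n0 := by
    have h1 : SS z F * A2 ≤ L * (2 * n0) := mul_le_mul hSSL hA2.2 hA2.1 hL0.le
    have h2 : 0 ≤ SS z F * A2 := mul_nonneg hSS0 hA2.1
    have h3 : 0 ≤ L * (2 * (n0 : ℝ)) := by positivity
    have h4 : (0 : ℝ) ≤ n0 := Nat.cast_nonneg _
    rw [abs_le]
    constructor <;> linarith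
  have e3 : L * (2 * (n0 : ℝ)) + n0 ≤ 3 * x / L ^ (V + 2) := by
    calc L * (2 * (n0 : ℝ)) + n0 ≤ 3 * L * n0 := by
          have h4 : (0 : ℝ) ≤ n0 := Nat.cast_nonneg _
          nlinarith
      _ ≤ 3 * L * (x / L ^ (V + 3)) := by gcongr
      _ = 3 * x / L ^ (V + 2) := by
          rw [show V + 3 = (V + 2) + 1 by ring, pow_succ L (V + 2)]
          field_simp
  calc _ ≤ |A1 - SS z F * A2| + |∑ n ∈ Ioc n0 y', (thw (F.eval (n : ℤ)) - SS z F) *
        (1 / Real.log ((F.eval (n : ℤ) : ℤ) : ℝ))| := abs_add_le _ _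
    _ ≤ 3 * x / L ^ (V + 2) + 4 * (4 * x / L ^ (V + 2)) := add_le_add (e2.trans e3) habel
    _ = 19 * x / L ^ (V + 2) := by ring
    _ ≤ x / L ^ V := by
        rw [div_le_div_iff₀ (by positivity) (by positivity), pow_add]
        calc 19 * (x : ℝ) * L ^ V = x * (L ^ V * 19) := by ring
          _ ≤ x * (L ^ V * L ^ 2) := by
              gcongr
              nlinarith

end Pool.Agent.W81.R1N
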